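import Mathlib
import Pool.Agent.Y992.ND.Gen4

set_option autoImplicit false

open MeasureTheory ProbabilityTheory Filter Topology
open scoped ENNReal Pointwise

/-!
# Biased perturbations of one-dimensional majority automata are ergodic

Let `F` be the majority automaton on `{0,1}^ℤ` with any neighbourhood of odd size, let `b` be a
symbol and `N'` a finite set.  There are `c > 0` and `K` such that every perturbation of `F` with
neighbourhood inside `N'` (not necessarily monotone, the error probabilities may depend on the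
configuration in any way) is ergodic, exponentially fast, as soon as it always produces the symbol
`b` with probability at least `τ` and makes errors away from `b` with probability at most `c τ^K`.
-/

namespace Pool.Agent.Results.MP_8850da_pr.BiasedPerturbations

open Pool.Agent.H443R3 Pool.Agent.Y992.ND

/-- The majority automaton on `{0,1}^ℤ` (`Site 1 = ℤ^1`) with neighbourhood `V`. -/
def F (V : Finset (Site 1)) : Config 1 Bool → Config 1 Bool := CA V (majority V)

/-- `Φ` is an `ε`-perturbation of `F V`. -/
def IsPerturbation (Φ : PCA 1 Bool) (V : Finset (Site 1)) (ε : ℝ) : Prop :=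
  ∀ (x : Config 1 Bool) (i : Site 1), 1 - ε ≤ (Φ.rule (Φ.pattern x i) (F V x i)).toReal

/-- `Φ` is positive. -/
def IsPositive (Φ : PCA 1 Bool) : Prop := ∀ u b, 0 < Φ.rule u b

theorem result (V : Finset (Site 1)) (hV : Odd V.card) (b : Bool) (N' : Finset (Site 1)) :
    (∀ η : ℝ, 0 < η → ∃ c : ℝ, 0 < c ∧ ∃ K : ℕ, ∀ (Φ : PCA 1 Bool) (τ δ : ℝ),
      Φ.nbhd ⊆ N' → 0 < τ → 0 ≤ δ → δ ≤ c * τ ^ K →
      (∀ (x : Config 1 Bool) (i : Site 1), τ ≤ (Φ.rule (Φ.pattern x i) b).toReal) →
      (∀ (x : Config 1 Bool) (i : Site 1), F V x i = b →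
        1 - δ ≤ (Φ.rule (Φ.pattern x i) b).toReal) →
      ∃ π : Measure (Config 1 Bool), ExpErgodic Φ π ∧
        ∀ i, 1 - η ≤ (π {x | x i = b}).toReal) ∧
    -- in the language of the question: all positive `ε`-perturbations in which moreover every
    -- error towards `b` has probability at least `τ` and every error away from `b` has
    -- probability at most `c τ^K`
    (∃ c : ℝ, 0 < c ∧ ∃ K : ℕ, ∀ (ε τ : ℝ) (Φ : PCA 1 Bool), ε ≤ 1 / 2 → 0 < τ → τ ≤ 1 / 2 →
      Φ.nbhd ⊆ N' → IsPositive Φ → IsPerturbation Φ V ε →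
      (∀ (x : Config 1 Bool) (i : Site 1), F V x i = !b →
        τ ≤ (Φ.rule (Φ.pattern x i) b).toReal) →
      (∀ (x : Config 1 Bool) (i : Site 1), F V x i = b →
        (Φ.rule (Φ.pattern x i) (!b)).toReal ≤ c * τ ^ K) →
      ∃ π : Measure (Config 1 Bool), ErgodicWith Φ π) := by
  have hb := not_erodes_one_dim V hV b
  constructor
  · intro η hη
    obtain ⟨c, hc, K, h⟩ := gen (N := V) majority_mono b hb N' hη
    exact ⟨c, hc, K, fun Φ τ δ hΦ hτ hδ hcδ h1 h2 => h Φ τ δ hΦ hτ hδ hcδ ⟨h1, h2⟩⟩
  · obtain ⟨c, hc, K, h⟩ := gen (N := V) majority_mono b hb N' one_pos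
    refine ⟨c, hc, K, fun ε τ Φ hε hτ hτ1 hΦ _ hP h1 h2 => ?_⟩
    have hsum : ∀ p : PMF Bool, (p b).toReal + (p (!b)).toReal = 1 := by
      intro p
      have h3 := MP_417bbc_pr.BiasedNoiseErgodic.pmf_sum p
      rw [← ENNReal.toReal_add (PMF.apply_ne_top _ _) (PMF.apply_ne_top _ _)]
      cases b with
      | true => rw [Bool.not_true, h3, ENNReal.toReal_one]
      | false => rw [Bool.not_false, add_comm, h3, ENNReal.toReal_one]
    have hPert : Pert Φ V (majority V) b τ (c * τ ^ K) := by
      constructor
      · intro x i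
        by_cases hx : F V x i = b
        · have h3 := hP x i
          rw [hx] at h3
          linarith
        · have h4 : F V x i = !b := by
            cases hF : F V x i <;> cases b <;> simp_all
          exact h1 x i h4
      · intro x i hx
        have h3 := h2 x i hx
        have h4 := hsum (Φ.rule (Φ.pattern x i))
        linarith
    obtain ⟨π, hπ, -⟩ := h Φ τ (c * τ ^ K) hΦ hτ (by positivity) le_rfl hPert
    exact ⟨π, hπ.erg⟩

end Pool.Agent.Results.MP_8850da_pr.BiasedPerturbations
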